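import Pool.Agent.H13R3.WB.Main

/-!
# A poset outside the class `𝒟` with balance constant below `β`

There is a finite poset of width two (it has 41 elements, in two chains with 20 and 21 elements)
that does not belong to the class `𝒟` of direct sums of one-element posets and of the three-element
poset with one relation, and whose balance constant is smaller than
`β = (5864893 + 27 √57) / 16812976`.  So the answer to Q2 is negative.

The poset has 1583915616 linear extensions; its balance constant is
`552536892 / 1583915616 = 0.34884237...`, while `β = 0.34884346...`.
-/

namespace Pool.Agent.Results.MP_33fb9b_co.BelowBeta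

open Pool.Agent.H13R3.WB

theorem result : ∃ (P : Type) (_ : Fintype P) (_ : PartialOrder P),
    (∀ s : Finset P, IsAntichain (· ≤ ·) (s : Set P) → s.card ≤ 2) ∧ ¬ InD P ∧
      balance P ≤ 348843 / 1000000 ∧
      (348843 : ℝ) / 1000000 < (5864893 + 27 * Real.sqrt 57) / 16812976 :=
  ⟨Pt, inferInstance, inferInstance, width_two, not_inD, balance_le, beta_gt⟩

end Pool.Agent.Results.MP_33fb9b_co.BelowBeta
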