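import Pool.Agent.H931R3.Bal13

/-!
# The gap above `1/3` for sums of posets and for series-parallel posets

The class `𝒟` and the balance constant are those of the problem.  The gap property
`P ∈ 𝒟 or δ(P) ≥ c` is inherited, for every `c ≤ 8/21`, by disjoint sums and direct sums, and
`δ(M) ≤ δ(P)` for every autonomous subset `M` of `P`.  Hence every series-parallel poset outside `𝒟`
has balance constant at least `8/21`, with equality for a poset with seven elements, and the
question whether all posets have the gap property with `c ≤ 8/21` reduces to connected posets that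
are not direct sums and all whose proper autonomous subsets lie in `𝒟`.
-/

namespace Pool.Agent.Results.MP_33fb9b_co.SeriesParallelGap

open Pool.Agent.H13R3.WB Pool.Agent.H931R3.Bal

theorem result :
    -- series-parallel posets
    (∀ (R : Type) [Fintype R] [PartialOrder R], SeriesParallel R → InD R ∨ 8 / 21 ≤ balance R) ∧
    -- the constant is optimal
    (∃ (R : Type) (_ : Fintype R) (_ : PartialOrder R), Fintype.card R = 7 ∧ SeriesParallel R ∧
      ¬ InD R ∧ balance R = 8 / 21) ∧
    -- inheritance by disjoint sums and by direct sums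
    (∀ c : ℝ, c ≤ 8 / 21 → ∀ (P Q : Type) [Fintype P] [PartialOrder P] [Nonempty P] [Fintype Q]
      [PartialOrder Q] [Nonempty Q], (InD P ∨ c ≤ balance P) → (InD Q ∨ c ≤ balance Q) →
      (InD (P ⊕ Q) ∨ c ≤ balance (P ⊕ Q)) ∧ (InD (P ⊕ₗ Q) ∨ c ≤ balance (P ⊕ₗ Q))) ∧
    -- autonomous subsets
    (∀ (P : Type) [Fintype P] [PartialOrder P] (M : Set P) [Fintype M] [Nonempty M],
      Autonomous M → balance M ≤ balance P) ∧
    -- reduction to irreducible posets
    (∀ c : ℝ, c ≤ 8 / 21 →
      (∀ (P : Type) [Fintype P] [PartialOrder P] [Nonempty P], Irreducible P →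
        InD P ∨ c ≤ balance P) →
      ∀ (P : Type) [Fintype P] [PartialOrder P] [Nonempty P], InD P ∨ c ≤ balance P) := by
  refine ⟨fun R _ _ h => sp_gap R h, ⟨X7, inferInstance, inferInstance, ?_, sp_sharp⟩, ?_, ?_, ?_⟩
  · have hc : Fintype.card (EE ⊕ₗ EE) = 6 := by rw [card_lexS]; simp
    rw [Fintype.card_sum, hc]
    simp
  · intro c hc P Q _ _ _ _ _ _ hP hQ
    exact ⟨gap_sum hc hP hQ, gap_lex hP hQ⟩
  · intro P _ _ M _ _ hM
    exact balance_autonomous hM
  · intro c hc h P _ _ _
    exact reduction hc h P

end Pool.Agent.Results.MP_33fb9b_co.SeriesParallelGap
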